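import Pool.Agent.Q260.DJ.Den
import Pool.Agent.Q260.DS.Stm5

set_option autoImplicit false

/-!
# Project BD (helper260), second part: Backlund's criterion for derivatives of `ξ` and Jensen shifts

The same as `Pool/Agent/Q260/DS/Stm5.lean`, for the functions of project DJ (`Pool/Agent/Q260/DJ/Stm.lean`).
The model proofs are those of `S_LB`, `S_VI`, `S_UP`, `S_DI` of project DJ (`Pool/Agent/Q177/DJ/VI.lean` and the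
modules imported in `Pool/Agent/Q260/DJ/All.lean`), and the parallel jobs of part one.
-/

namespace Pool.Agent.Q260.DJ

open Complex Filter Topology Metric Set
open Pool.Agent.H24R2.JP (HH XX FF gam Om)
open Pool.Agent.Q260.DS (Few S_FB)

/-- Upper bound by the normal size times `T^e`. -/
def UBJ (G : ℂ → ℂ) (θ T e : ℝ) : Prop := ∀ x : ℝ, θ ≤ x → x ≤ 3 →
  ‖G (x + I * T)‖ ≤ Real.exp (e * Real.log T) * ‖HH (x + I * T)‖ * (‖G (3 + I * T)‖ / ‖HH (3 + I * T)‖)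

/-- JOB JU (from `S_HA`, `S_HB`, `DS.S_FB`): few zeros give an upper bound. Proof. `g = G / HH` on
`closedBall c ρ`, `c = 3 + I T`, `ρ = 3 - θ`, as in the proof of `S_LB`; zeros with `Re > 1/2 + 1/8` are excluded by
`right`. -/
def S_JU : Prop := ∀ G : ℂ → ℂ, Cl G → ∀ ε δ : ℝ, 0 < ε → 0 < δ → δ ≤ 1 / 2 → ∃ η T0 : ℝ, 0 < η ∧ 3 ≤ T0 ∧
  ∀ T θ : ℝ, T0 ≤ T → 0 ≤ θ → θ ≤ 1 → Few G θ T 4 (η * Real.log T) → UBJ G (θ + δ) T ε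

/-- JOB JV (from `S_HA`, `S_HB`): vertical integration of upper bounds, as `S_VI` (`Pool/Agent/Q177/DJ/VI.lean`),
simpler. -/
def S_JV : Prop := ∀ (b : Bool) (F : ℂ → ℂ), Cl F → Cl (Op b F) → ∀ ε : ℝ, 0 < ε → ∃ C T0 : ℝ, 1 ≤ C ∧ 3 ≤ T0 ∧
  ∀ T θ : ℝ, T0 ≤ T → 0 ≤ θ → (∀ y : ℝ, T ≤ y → y ≤ T + C * Real.log T → UBJ (Op b F) θ y ε) →
  UBJ F θ T (3 * ε)

/-- JOB JI (from `S_C0`, `S_CD`, `S_JV`). Proof. Induction on `l`, `e = ε / 3^(length)`; `Cl (It l)` from `S_C0`,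
`S_CD`. -/
def S_JI : Prop := ∀ (l : List Bool) (ε : ℝ), 0 < ε → ∃ e C T0 : ℝ, 0 < e ∧ 1 ≤ C ∧ 3 ≤ T0 ∧
  ∀ T θ : ℝ, T0 ≤ T → 0 ≤ θ → (∀ y : ℝ, T ≤ y → y ≤ T + C * Real.log T → UBJ (It l) θ y e) → UBJ XX θ T ε

/-- JOB JC (from `S_HA`, `S_HB`, `S_C0`, `S_CD`): Cauchy's estimate. Proof. Induction on `l` for all `δ`, `ε`
(`ε` becomes `ε (1 + 1/(2 length))` each time, or state it with `ε' > ε` arbitrary): on the circle of radius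
`1 / log T` around `z = x + I T`: `‖HH w‖ ≤ C ‖HH z‖` (`logDeriv HH = O(log T)`), `‖G (3 + I y)‖ / ‖HH (3 + I y)‖` at
comparable heights is comparable (`mass`), for `3 ≤ Re w ≤ 4` use `right` (`log ‖G/HH‖` changes by at most `C` between
`3 + I y` and `w`). So `‖G'‖ ≤ C log T exp (ε log (T+1)) ..`, and `mass` of `G'` (or `Op b G`) absorbs nothing but
constants and powers of `log T`. -/
def S_JC : Prop := ∀ (l : List Bool) (ε δ : ℝ), 0 < ε → 0 < δ → δ ≤ 1 / 2 → ∃ T0 : ℝ, 3 ≤ T0 ∧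
  ∀ T θ : ℝ, T0 ≤ T → 0 ≤ θ → (∀ y : ℝ, |y - T| ≤ δ → UBJ XX θ y ε) → UBJ (It l) (θ + δ) T (2 * ε)

/-- JOB JF (from `S_HA`, `S_HB`): an upper bound gives few zeros, by Jensen's inequality for `g = G / HH`, as
`DS.S_UF`; see also `Pool/Agent/Q239/DJ/LC.lean` (`S_LC`), which is this count with `O(log T)`. -/
def S_JF : Prop := ∀ G : ℂ → ℂ, Cl G → ∀ δ η R : ℝ, 0 < δ → δ ≤ 1 / 2 → 0 < η → 0 ≤ R →
  ∃ e T0 : ℝ, 0 < e ∧ 3 ≤ T0 ∧ ∀ T θ : ℝ, T0 ≤ T → 0 ≤ θ → θ ≤ 3 / 2 →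
  (∀ y : ℝ, |y - T| ≤ R + 4 → UBJ G θ y e) → Few G (θ + δ) T R (η * Real.log T)

/-- JOB JQ (from `S_C0`, `S_CD`, `S_JU`, `S_JI`, `S_JC`, `S_JF`): few zeros of `It l` iff few zeros of `XX`, as
`DS.S_FQ`. -/
def S_JQ : Prop := ∀ (l : List Bool) (δ η : ℝ), 0 < δ → δ ≤ 1 / 2 → 0 < η → ∃ e C T0 : ℝ, 0 < e ∧ 1 ≤ C ∧ 3 ≤ T0 ∧
  ∀ T θ : ℝ, T0 ≤ T → 0 ≤ θ → θ ≤ 1 →
  ((∀ y : ℝ, T - 12 ≤ y → y ≤ T + C * Real.log T → Few (It l) θ y 1 (e * Real.log T)) →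
    Few XX (θ + δ) T 1 (η * Real.log T)) ∧
  ((∀ y : ℝ, |y - T| ≤ 12 → Few XX θ y 1 (e * Real.log T)) → Few (It l) (θ + δ) T 1 (η * Real.log T))

/-- JOB JZ: Backlund's theorem for zeta in the form needed, on every line `Re s = σ`, local. Proof.
`Q240.LH.large_zeros`, `Q240.LH.small_few` (`Pool/Agent/Q240/LH/Final.lean`; see the result file
`MP_4e5e8a_nt/LeftZeros.lean`) with `P = 1`, `S = ∅`: zeros of zeta with `0 ≤ Re s ≤ α - η` are the reflections of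
the zeros with `Re s ≥ 1 - α + η`, with the same orders (`XX z = HH z ζ (1/2 + z)`, `XX (-conj z) = conj (XX z)`). -/
def S_JZ : Prop := ∀ σ : ℝ, 1 / 2 ≤ σ → σ < 1 →
  (∀ ε : ℝ, 0 < ε → ∃ δ h T0 : ℝ, 0 < δ ∧ 0 < h ∧ 3 ≤ T0 ∧ ∀ T : ℝ, T0 ≤ T →
    (∀ y : ℝ, |y - T| ≤ h → Few XX (σ - 1 / 2 + δ) y 1 (δ * Real.log T)) →
    ‖riemannZeta (σ + T * I)‖ ≤ T ^ ε) ∧
  (∀ δ : ℝ, 0 < δ → ∃ ε h T0 : ℝ, 0 < ε ∧ 0 < h ∧ 3 ≤ T0 ∧ ∀ T : ℝ, T0 ≤ T →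
    (∀ t : ℝ, |t - T| ≤ h → ‖riemannZeta (σ + t * I)‖ ≤ T ^ ε) →
    Few XX (σ - 1 / 2 + δ) T 1 (δ * Real.log T))

end Pool.Agent.Q260.DJ
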