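import Pool.Agent.Q144.DJ.HA
import Pool.Agent.Q24.DJ.HB
import Pool.Agent.Q176.DJ.C0
import Pool.Agent.Q144.DJ.CD
import Pool.Agent.Q144.DJ.TC
import Pool.Agent.Q24.DJ.LB
import Pool.Agent.Q24.DJ.OD
import Pool.Agent.Q177.DJ.VI
import Pool.Agent.Q144.DJ.BK
import Pool.Agent.Q24.DJ.FW
import Pool.Agent.Q24.DJ.UD
import Pool.Agent.Q24.DJ.DI
import Pool.Agent.Q285.DJ.ID
import Pool.Agent.Q285.DJ.SP
import Pool.Agent.Q52.DJ.JN
import Pool.Agent.Q285.DJ.GL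
import Pool.Agent.Q176.DJ.LI

set_option autoImplicit false

/-!
# Project DJ: all lemmas
-/

namespace Pool.Agent.Q260.DJ

theorem ha : S_HA := Q144.DJ.t_HA
theorem hb : S_HB := Q24.DJ.t_HB ha
theorem c0 : S_C0 := Q176.DJ.t_C0 ha hb
theorem cd : S_CD := Q144.DJ.t_CD ha hb
theorem tc : S_TC := Q144.DJ.t_TC
theorem lb : S_LB := Q24.DJ.t_LB ha tc
theorem od : S_OD := Q24.DJ.t_OD
theorem vi : S_VI := Q177.DJ.t_VI ha hb lb
theorem bk : S_BK := Q144.DJ.t_BK ha lb od vi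
theorem fw : S_FW := Q24.DJ.t_FW ha lb
theorem up : S_UP := Q24.DJ.t_UP c0 cd bk
theorem dn : S_DN := Q24.DJ.t_DN c0 cd fw
theorem di : S_DI := Q24.DJ.t_DI up dn
theorem ra : S_RA := Q24.DJ.t_RA up
theorem idl : S_ID := Q285.DJ.t_ID
theorem spl : S_SP := Q285.DJ.t_SP
theorem jn : S_JN := Q52.DJ.t_JN
theorem gl : S_GL := Q285.DJ.t_GL di idl spl
theorem li : S_LI := Q176.DJ.t_LI

end Pool.Agent.Q260.DJ
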