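import Pool.Agent.Q260.DJ.Bk
import Pool.Agent.Q149.BD.FB
import Pool.Agent.Q211.BD.JU
import Pool.Agent.Q65.BD.JV
import Pool.Agent.Q277.BD.JI
import Pool.Agent.Q65.BD.JC
import Pool.Agent.Q65.BD.JF
import Pool.Agent.Q225.BD.JQ

set_option autoImplicit false

/-!
# Project BD: all lemmas on derivatives of `ξ` and Jensen shifts
-/

namespace Pool.Agent.Q260.DJ

theorem ju : S_JU := Q211.BD.JU.t_JU ha hb Q149.BD.t_FB
theorem jv : S_JV := Q65.BD.t_JV ha hb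
theorem ji : S_JI := Q277.BD.t_JI c0 cd jv
theorem jc : S_JC := Q65.BD.t_JC ha hb c0 cd
theorem jf : S_JF := Q65.BD.t_JF ha hb
theorem jq : S_JQ := Q225.BD.t_JQ c0 cd ju ji jc jf

end Pool.Agent.Q260.DJ
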