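import Pool.Agent.Q260.DJ.All

set_option autoImplicit false

/-!
# Project DJ: the derivatives of `ξ` and the shifted functions, statements on zero density
-/

open Complex Filter Topology Polynomial

namespace Pool.Agent.Q260.DJ

open Pool.Agent.H24R2.JP (XX FF gam jensen Par b1 gamT goodT parT xi)
open Pool.Agent.H24R2.JP.B1h (XX_diff XX_conj)
open Pool.Agent.H24R2.JP.Zer (XX_eq completed_zero)
open Pool.Agent.Q285.DJ (fin_iff fin_shift zeta_iff iter_conj iter_diff log_small)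

/-- The shifted function `∑ γ(n+k) z^(2k) / k!`. -/
noncomputable def Ph (n : ℕ) (z : ℂ) : ℂ := ∑' k : ℕ, ((gam (n + k) : ℝ) : ℂ) / (k.factorial : ℂ) * z ^ (2 * k)

lemma FFn_diff (n : ℕ) : Differentiable ℂ (iteratedDeriv n FF) :=
  Pool.Agent.H24R2.JP.XiFin.FF_iter_diff b1 n

lemma Ph_eq (n : ℕ) (z : ℂ) : Ph n z = iteratedDeriv n FF (z ^ 2) := by
  have h := Complex.hasSum_taylorSeries_of_entire (FFn_diff n) 0 (z ^ 2)
  rw [← h.tsum_eq]
  unfold Ph
  refine tsum_congr fun k => ?_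
  have e : iteratedDeriv k (iteratedDeriv n FF) = iteratedDeriv (n + k) FF := by
    rw [iteratedDeriv_eq_iterate, iteratedDeriv_eq_iterate, iteratedDeriv_eq_iterate, ← Function.iterate_add_apply,
      add_comm k n]
  rw [e, sub_zero, ← b1.2.2.2 (n + k), smul_eq_mul, smul_eq_mul, ← pow_mul]
  field_simp

/-- the list of steps -/
lemma It_true (n : ℕ) (z : ℂ) (hz : z ≠ 0) : It (List.replicate n true) z = Ph n z := by
  rw [idl.2 n z hz, Ph_eq]

lemma It_false (n : ℕ) (z : ℂ) : It (List.replicate n false) z = 8 * iteratedDeriv n xi (z + 1 / 2) := by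
  rw [idl.1 n z, Pool.Agent.H24R2.JP.XiFin.iter_xi, add_sub_cancel_right]
  ring

lemma Ph_diff (n : ℕ) : Differentiable ℂ (Ph n) := by
  have : Ph n = fun z => iteratedDeriv n FF (z ^ 2) := funext (Ph_eq n)
  rw [this]
  exact (FFn_diff n).comp (differentiable_id.pow 2)

lemma Ph_conj (n : ℕ) (z : ℂ) : Ph n ((starRingEnd ℂ) z) = (starRingEnd ℂ) (Ph n z) := by
  unfold Ph
  rw [Complex.conj_tsum]
  refine tsum_congr fun k => ?_
  rw [map_mul, map_div₀, map_pow, Complex.conj_ofReal, Complex.conj_natCast]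

lemma Ph_strip (n : ℕ) (z : ℂ) (h : Ph n z = 0) : |z.re| ≤ 1 / 2 := by
  rw [Ph_eq] at h
  have h1 := parT FF goodT n _ h
  unfold Pool.Agent.H24R2.JP.Par at h1
  rw [Set.mem_ofPred_eq, pow_two, Complex.mul_re, Complex.mul_im] at h1
  have h2 : z.re ^ 2 ≤ 1 / 4 := by
    by_contra hcon
    push Not at hcon
    nlinarith [mul_nonneg (sq_nonneg z.im) (sub_nonneg.2 hcon.le)]
  rw [abs_le]
  constructor <;> nlinarith

/-- a function which is `It l` and has the zeros of `F` (shifted) -/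
structure Rep (l : List Bool) (F G : ℂ → ℂ) : Prop where
  diff : Differentiable ℂ G
  conj : ∀ z, G ((starRingEnd ℂ) z) = (starRingEnd ℂ) (G z)
  strip : ∀ z, G z = 0 → |z.re| ≤ 1 / 2
  it : ∀ z, z ≠ 0 → It l z = G z
  shift : ∃ c : ℂ, c ≠ 0 ∧ ∀ s, F s = c * G (s - 1 / 2)

lemma rep_false (n : ℕ) : Rep (List.replicate n false) (iteratedDeriv n xi) (iteratedDeriv n XX) where
  diff := iter_diff n
  conj := iter_conj n
  strip := spl n
  it := fun z _ => by rw [idl.1 n z]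
  shift := ⟨1 / 8, by norm_num, fun s => Pool.Agent.H24R2.JP.XiFin.iter_xi n s⟩

lemma rep_true (n : ℕ) : Rep (List.replicate n true) (fun s => Ph n (s - 1 / 2)) (Ph n) where
  diff := Ph_diff n
  conj := Ph_conj n
  strip := Ph_strip n
  it := fun z hz => It_true n z hz
  shift := ⟨1, one_ne_zero, fun s => (one_mul _).symm⟩

lemma im_ne {z : ℂ} (h : 0 < z.im) : z ≠ 0 := by
  rintro rfl
  exact lt_irrefl _ h

lemma half_re : ((1 / 2 : ℂ)).re = 1 / 2 := by norm_num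
lemma half_im : ((1 / 2 : ℂ)).im = 0 := by norm_num

/-- zeros of zeta above the real axis -/
lemma zeta_XX {s : ℂ} (hs : 0 < s.im) (h : riemannZeta s = 0) : XX (s - 1 / 2) = 0 := by
  have hs0 : s ≠ 0 := im_ne hs
  have e : (1 / 2 + (s - 1 / 2) : ℂ) = s := by ring
  have hs1 : (1 - s : ℂ) ≠ 0 := by
    intro h1
    have : (1 - s : ℂ).im = 0 := by rw [h1, Complex.zero_im]
    rw [Complex.sub_im, Complex.one_im] at this
    linarith
  rw [XX_eq (s - 1 / 2) (by rw [e]; exact hs0) (by rw [e]; exact hs1), e]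
  rw [riemannZeta_def_of_ne_zero hs0] at h
  rcases div_eq_zero_iff.1 h with h1 | h1
  · rw [h1, mul_zero]
  · obtain ⟨n, hn⟩ := Complex.Gammaℝ_eq_zero_iff.1 h1
    rw [hn] at hs
    simp at hs

lemma XX_zeta' {s : ℂ} (h : XX (s - 1 / 2) = 0) : riemannZeta s = 0 := by
  have e : (1 / 2 + (s - 1 / 2) : ℂ) = s := by ring
  obtain ⟨h1, -, h3⟩ := completed_zero _ h
  rw [e] at h1 h3
  rw [riemannZeta_def_of_ne_zero h1, h3, zero_div]


/-- The number of zeros, with multiplicity, with `Re s ≥ σ` and `0 < Im s ≤ T`. -/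
noncomputable def right (f : ℂ → ℂ) (σ T : ℝ) : ℕ :=
  ∑ᶠ s ∈ {s : ℂ | f s = 0 ∧ σ ≤ s.re ∧ 0 < s.im ∧ s.im ≤ T}, analyticOrderNatAt f s

/-- The density estimate with exponent `A` for the zeros of `f` with `Re s ≥ σ`, uniformly for
`1/2 ≤ σ ≤ 1`. -/
def Estimate (f : ℂ → ℂ) (A : ℝ → ℝ) : Prop := ∀ ε : ℝ, 0 < ε → ∃ C T₀ : ℝ, 0 < C ∧ 0 < T₀ ∧ ∀ T : ℝ, T₀ ≤ T →
  ∀ σ : ℝ, 1 / 2 ≤ σ → σ ≤ 1 → (right f σ T : ℝ) ≤ C * T ^ (A σ + ε)

/-- Two functions with comparable zero counts to the right of the critical line. -/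
def Comp (F G : ℂ → ℂ) : Prop := ∀ ε : ℝ, 0 < ε → ∃ C : ℝ, 0 < C ∧ ∀ σ T : ℝ, 1 / 2 ≤ σ → 2 ≤ T →
  (right F (σ + ε) T : ℝ) ≤ C * Real.log T ^ 2 * (right G σ (T + C * Real.log T) + 1)

/-- JOB LC: local count of zeros. Proof. `G z = It l z` for `z ≠ 0`, and `Cl (It l)` (`c0`, `cd`, induction on `l`).
Jensen's inequality on the discs of centre `c = 3/5 + I T` and radii `6/5 < 3/2`: `G c ≠ 0`, and
`‖G c‖ ≥ exp (-A log T) ‖HH c‖` (`mass` at `3 + I T`, then `right` with `a = 11/20`, `B = 4` along the segment: `log ‖G/HH‖`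
changes by at most `3 C`); `‖G w‖ ≤ exp (A log (T+2)) ‖HH w‖ ≤ exp (A' log T) ‖HH c‖` for `‖w - c‖ ≤ 3/2`
(`grow` with `a = -19/20`, `hb`). Zeros with `0 ≤ Re z ≤ 1/2`, `|Im z - T| ≤ 1` have `‖z - c‖ ≤ 6/5`. For a ready-made
count with multiplicity see `Q240/LD/Box.lean` and the lemmas it uses (`H370.mult`, Jensen). -/
def S_LC : Prop := ∀ (l : List Bool) (F G : ℂ → ℂ), Rep l F G → ∃ C T0 : ℝ, 0 < C ∧ 3 ≤ T0 ∧ ∀ T : ℝ, T0 ≤ T →
  ∀ Z : Finset ℂ, (∀ z ∈ Z, G z = 0 ∧ 0 ≤ z.re ∧ |z.im - T| ≤ 1) →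
    ∑ z ∈ Z, (analyticOrderNatAt G z : ℝ) ≤ C * Real.log T

/-- JOB CP (from `S_LC`): comparison of `F` with `ζ` in both directions. Proof. `Rep [] xi XX` (`rep_false 0`) and
`ζ` and `XX (· - 1/2)` have the same zeros with the same multiplicities above the real axis (`zeta_XX`, `XX_zeta'`;
`XX = HH ζ` with `HH` analytic and nonzero there, or use `4 z^2 - 1`, `Gammaℝ`). For `z` with `G z = 0`,
`Re z ≥ σ - 1/2 + ε`, `Im z ≥ T0`, the dictionary `di` gives a zero `w` of `G'` with `Re w > σ - 1/2`,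
`|Im w - Im z| ≤ C log T`. The number of zeros `z` (with multiplicity) assigned to a given `w` is at most
`C' log T · log T` (`S_LC`, windows of length `2`); zeros with `Im z ≤ T0` are finitely many. See `Q240/LD/Comp.lean`,
`Q240/LD/Box.lean` (`cover`) for the same argument. -/
def S_CP : Prop := ∀ (l : List Bool) (F G : ℂ → ℂ), Rep l F G → Comp F riemannZeta ∧ Comp riemannZeta F

/-- JOB ES (from `S_LC`, `S_CP`): density estimates pass. Proof. As `dens_pass` in `Q240/LD/Dens.lean`: given `ε`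
take `η` with `|A σ - A σ'| ≤ ε/4` for `|σ - σ'| ≤ η` (uniform continuity); for `σ ≥ 1/2 + η` use `Comp` with `η`;
for `σ < 1/2 + η` the trivial bound `right F σ T ≤ C T log T ≤ C T^(A σ + ε)` as `A σ ≥ 1 - ε/4`. -/
def S_ES : Prop := ∀ (l : List Bool) (F G : ℂ → ℂ), Rep l F G → ∀ A : ℝ → ℝ, ContinuousOn A (Set.Icc (1 / 2) 1) →
  (∀ x ∈ Set.Icc (1 / 2 : ℝ) 1, 0 ≤ A x) → 1 ≤ A (1 / 2) → (Estimate F A ↔ Estimate riemannZeta A)

end Pool.Agent.Q260.DJ
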