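import Pool.Agent.H24R2.JP.Spec2

set_option autoImplicit false

/-!
# Project DJ (helper260): differentiation and Jensen shifts keep the asymptotic abscissa of the zeros

Coordinates: `XX z = 8 ξ (1/2 + z)`, upper half plane, `HH z = (4 z² - 1) Γ_ℝ(1/2 + z)`, so that
`XX z = HH z * ζ (1/2 + z)`; see `Pool/Agent/H24R2/JP/Spec.lean` (all `S..` there are proved in
`Pool/Agent/H24R2/JP/All.lean`, `All2.lean`: `stir`, `zetaS`, `b1`, `goodT`, `parT`, `gamT`, ...).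
`Om t = log t / 2`.

Every job is one `Prop` `S_...` below; the job is to prove it (from other `S_...` given as hypotheses
where the docstring says so).
-/

namespace Pool.Agent.Q260.DJ

open Complex Filter Topology Metric Set
open Pool.Agent.H24R2.JP (HH XX FF gam jensen Hyperbolic Om Par xi)

/-- One step: `G'` (`b = false`) or `G' / (2 z)` (`b = true`). -/
noncomputable def Op (b : Bool) (G : ℂ → ℂ) : ℂ → ℂ :=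
  fun z => if b then deriv G z / (2 * z) else deriv G z

/-- Iterated steps from `XX`. -/
noncomputable def It : List Bool → ℂ → ℂ
  | [] => XX
  | b :: l => Op b (It l)

/-- `G` has no zeros in the box `θ < Re z ≤ 2`, `|Im z - T| ≤ X`. -/
def NZ (G : ℂ → ℂ) (θ T X : ℝ) : Prop :=
  ∀ z : ℂ, θ < z.re → z.re ≤ 2 → |z.im - T| ≤ X → G z ≠ 0

/-- `δ` is not too small in terms of `T`: it may be a constant, or `C' logloglog T / loglog T`. -/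
def Ok (C T δ : ℝ) : Prop := 0 < δ ∧ δ ≤ 1 / 2 ∧ C / δ ^ 3 ≤ Real.log T ^ (δ / C)

/-- The error term. -/
noncomputable def EE (C T δ : ℝ) : ℝ := C / δ ^ 2 * Real.log T ^ (1 - δ / C)

/-- The class of functions. -/
structure Cl (G : ℂ → ℂ) : Prop where
  an : ∀ z : ℂ, 0 < z.im → AnalyticAt ℂ G z
  grow : ∀ a B : ℝ, -1 < a → B < 40 → ∃ A T0 : ℝ, 0 < A ∧ 3 ≤ T0 ∧
    ∀ z : ℂ, a ≤ z.re → z.re ≤ B → T0 ≤ z.im → ‖G z‖ ≤ Real.exp (A * Real.log z.im) * ‖HH z‖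
  right : ∀ a B : ℝ, 1 / 2 < a → B < 40 → ∃ C T0 : ℝ, 0 < C ∧ 3 ≤ T0 ∧
    ∀ z : ℂ, a ≤ z.re → z.re ≤ B → T0 ≤ z.im → G z ≠ 0 ∧ ‖logDeriv G z - logDeriv HH z‖ ≤ C
  mass : ∃ (k j : ℕ) (C T0 : ℝ), 1 ≤ C ∧ 3 ≤ T0 ∧ ∀ t : ℝ, T0 ≤ t →
    Real.log t ^ k / t ^ j / C ≤ ‖G (3 + I * t)‖ / ‖HH (3 + I * t)‖ ∧
    ‖G (3 + I * t)‖ / ‖HH (3 + I * t)‖ ≤ C * (Real.log t ^ k / t ^ j)

/-- JOB HA (Stirling for `HH`). Proof. `HH` is analytic and nonzero for `Im z > 0` (`JP.HH_ne`,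
`JP.HH_diff` in `H24R2/JP/Stir.lean`, `DifferentiableOn.analyticAt` on the open half plane).
`logDeriv HH z = 8 z / (4 z² - 1) - log π / 2 + (1/2) ψ((1/2 + z) / 2)`, `ψ = logDeriv Gamma`
(`JP.ld_eq`/`HH_deriv`). With `w = (1/2+z)/2`: `‖ψ(w) - log w‖ ≤ C/‖w‖`: for `Re w > 0` see
`H370.DG.logDeriv_Gamma'` (`H370R2/Digamma.lean`): `ψ(w) = log(w+2) - 1/w - 1/(w+1) + Σ er n w`, and for
`|w| → ∞` the sum of the `er n w` is `O(1/|Im w|)` (`log_step`: each term is `O(1/‖w+n+2‖²)` and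
`Σ 1/(n²+y²) ≤ π/y + 1/y²`); for `-1/4 ≤ Re w ≤ 0` use `ψ(w) = ψ(w+1) - 1/w`. Only two facts are needed:
the real bound `‖logDeriv HH z - Om (Im z)‖ ≤ C`, and `Im (logDeriv HH z) → π/4`, because
`Im log w = arg w → π/2` for `Im w → ∞`, `Re w` bounded, and `π/4 > 1/2`. The bound for the derivative
of `logDeriv HH`: Cauchy's estimate on the disc of radius `1/2` for `logDeriv HH - Om (Im z)` (start
with the slightly larger strip `-3/2 ≤ Re ≤ 41`), since `|Om (Im w) - Om (Im z)| ≤ 1` there. -/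
def S_HA : Prop := (∀ z : ℂ, 0 < z.im → AnalyticAt ℂ HH z ∧ HH z ≠ 0) ∧
  ∃ C T0 : ℝ, 1 ≤ C ∧ 3 ≤ T0 ∧ ∀ z : ℂ, -1 ≤ z.re → z.re ≤ 40 → T0 ≤ z.im →
    ‖logDeriv HH z - (Om z.im : ℂ)‖ ≤ C ∧ 1 / 2 ≤ (logDeriv HH z).im ∧ ‖deriv (logDeriv HH) z‖ ≤ C

/-- JOB HB (from `S_HA`). Proof. First part: `f v = ‖HH(x+i(t+v))‖² exp(v)` (or `log ‖HH‖ + v/2`) has
derivative `≤ 0` since `d/dv log‖HH(x+i(t+v))‖ = Re(i · logDeriv HH) = - Im (logDeriv HH) ≤ -1/2`.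
Second part: `HH w = HH z · exp(∫ of logDeriv HH along the segment)`, `‖logDeriv HH‖ ≤ Om + C` there
(segment from `z` to `w` stays in the strip, heights in `[Im z - 1, Im z + 1]`); so
`‖HH w‖ ≤ ‖HH z‖ exp(Om (Im z + 1) + C)`. (Gronwall: `norm_le_gronwallBound_of_norm_deriv_right_le` or
`H382R2.Gam.gron`.) -/
def S_HB : Prop := ∃ C T0 : ℝ, 1 ≤ C ∧ 3 ≤ T0 ∧
  (∀ (x t v : ℝ), -1 ≤ x → x ≤ 40 → T0 ≤ t → 0 ≤ v →
    ‖HH (x + I * ((t + v : ℝ) : ℂ))‖ ≤ Real.exp (-v / 2) * ‖HH (x + I * t)‖) ∧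
  (∀ z w : ℂ, -1 ≤ z.re → z.re ≤ 40 → -1 ≤ w.re → w.re ≤ 40 → T0 ≤ z.im → ‖w - z‖ ≤ 2 →
    ‖HH w‖ ≤ Real.exp (C * Real.log z.im) * ‖HH z‖)

/-- JOB C0 (from `S_HA`, `S_HB`): the base function. Proof. `an`: `JP.XX_diff`. For `Re z ≥ 0`:
`XX z = HH z ζ(1/2+z)` (`JP.zetaS.1`), and `‖ζ(s)‖ ≤ 1 + K‖s‖` for `Re s ≥ 1/2`, `Im s ≥ 1`
(`JP.zetaS.2` with `M = 1`); for `-1 < a ≤ Re z < 0`: `‖XX z‖ = ‖XX(-conj z)‖` (`JP.XX_neg`,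
`JP.XX_conj`), and `‖HH(-conj z)‖ ≤ exp(C log Im z) ‖HH z‖` by `S_HB` (`‖-conj z - z‖ = 2|Re z| ≤ 2`).
`right`: `Re s = 1/2 + Re z ≥ 1/2 + a > 1`: `ζ(s) ≠ 0` and `ζ'/ζ = - Σ Λ(n) n^{-s}` is bounded
(`H31R2.DH.zeta_bounds` or `LSeries`-estimates), and `logDeriv XX = logDeriv HH + logDeriv ζ(1/2+·)`.
`mass`: `k = j = 0`, `‖ζ(7/2 + it)‖` lies between two positive constants. -/
def S_C0 : Prop := Cl XX

/-- JOB CD (from `S_HA`, `S_HB`): the class is closed under `Op`. Proof. Let `G1 = Op b G`,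
`q = logDeriv G`, `h = logDeriv HH`. `an`: clear (`2 z ≠ 0`). `grow`: for `-1 < a`, `B < 40` take
`a' = (a-1)/2`, `B' = (B+40)/2`, `r = min (a - a') (B' - B) ≤ 1`: Cauchy's estimate
`‖G' z‖ ≤ max_{|w-z|=r} ‖G w‖ / r` (`Complex.norm_deriv_le_of_forall_mem_sphere_norm_le`), `grow` of `G`
on the larger strip, `‖HH w‖ ≤ exp(C log Im z)‖HH z‖`, `log Im w ≤ log(Im z + 1) ≤ 2 log Im z`, and
`1/‖2z‖ ≤ 1`. `right`: for `1/2 < a`, `B < 40` take the larger strip `a' = (a+1/2)/2`, `B' = (B+40)/2`,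
where `‖q - h‖ ≤ C`; Cauchy's estimate gives `‖q' - h'‖ ≤ C/r` on the smaller strip, hence `‖q'‖ ≤ C'`,
while `‖q‖ ≥ Om(Im z) - C'' ≥ 1`; so `G' = G q ≠ 0` and `logDeriv G' = q + q'/q`, which differs from `h`
by at most `C + C'`; for `b = true` subtract `1/z`. `mass`: `‖G1/HH‖ = ‖G/HH‖ ‖q‖ (/ ‖2z‖)` at
`z = 3 + I t`, with `log t / 4 ≤ ‖q‖ ≤ log t` and `2 t ≤ ‖2 z‖ ≤ 4 t`: `(k, j)` becomes `(k+1, j)` or
`(k+1, j+1)`. -/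
def S_CD : Prop := ∀ (b : Bool) (G : ℂ → ℂ), Cl G → Cl (Op b G)

/-- JOB TC (abstract three circles). Proof. On the disc `ball c ρ` (simply connected, `g ≠ 0`) write
`g = g c * exp f`, `f c = 0` (`H31R2.DH.exists_log` in `Pool/Agent/H31R2/DH/Back.lean`);
`Re f ≤ M`, `f' = logDeriv g`. Borel-Caratheodory (Mathlib `borelCaratheodory_zero`): on
`closedBall c (ρ - δ/4)`: `‖f‖ ≤ 2 (ρ - δ/4) M / (δ/8) ≤ 48 M/δ` (use the disc of radius `ρ - δ/8`).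
On `closedBall c 1`: `‖f‖ ≤ C0`. Hadamard's three circles with radii `1 < ρ - δ/2 < ρ - δ/4`: with
`α = log(ρ-δ/2)/log(ρ-δ/4)`, `1 - α ≥ (δ/4)/((ρ - δ/4) log(ρ - δ/4)) ≥ δ/16` (as `ρ ≤ 3`):
`‖f‖ ≤ C0^(1-α) (48 M/δ)^α ≤ C0 (48/δ) M^(1-δ/16)` on `closedBall c (ρ - δ/2)` (`C0 ≥ 1`, `M ≥ 1`). For
an explicit exponent see the proof of `H296R2.LE.three_circles` (its `θ` is
`log(ρ/r)/log(R'/r)`, `R' = (ρ+R)/2`), or apply Mathlib's three lines theorem to `f(c + e^w)`.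
Cauchy's estimate with radius `δ/2` gives `‖f'‖ ≤ (2/δ) ...` for `‖w - c‖ ≤ ρ - δ`. -/
def S_TC : Prop := ∀ C0 : ℝ, 1 ≤ C0 → ∃ C : ℝ, 1 ≤ C ∧ ∀ (g : ℂ → ℂ) (c : ℂ) (ρ δ M : ℝ),
  2 ≤ ρ → ρ ≤ 3 → 0 < δ → δ ≤ 1 / 2 → 1 ≤ M → DifferentiableOn ℂ g (ball c ρ) →
  (∀ w ∈ ball c ρ, g w ≠ 0) → (∀ w ∈ ball c ρ, ‖g w‖ ≤ Real.exp M * ‖g c‖) →
  (∀ w ∈ closedBall c 1, ‖logDeriv g w‖ ≤ C0) →
  ∀ w : ℂ, ‖w - c‖ ≤ ρ - δ → |Real.log (‖g w‖ / ‖g c‖)| ≤ C / δ ^ 2 * M ^ (1 - δ / C) ∧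
    ‖logDeriv g w‖ ≤ C / δ ^ 2 * M ^ (1 - δ / C)

/-- JOB LB (from `S_HA`, `S_TC`). Proof. `g w = G w / HH w`, `c = 3 + I T`, `ρ = 3 - θ ∈ [2, 3]`,
`M = A' log T`. In `ball c ρ`: `Re w > θ`, `Re w < 6`, `|Im w - T| < 3`; `g ≠ 0` by `NZ` for
`Re w ≤ 2` and by `right` (`a = 1`, `B = 6`) for `Re w ≥ 1`. `‖g w‖ ≤ exp(A log(T+3))` by `grow`
(`a = -1/2`, `B = 6`), `‖g c‖ ≥ T^(-j)/C ≥ exp(-(j+1) log T)` by `mass`; so
`‖g w‖ ≤ exp(M) ‖g c‖` with `M = A' log T`. On `closedBall c 1`: `logDeriv g = logDeriv G - logDeriv HH`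
is bounded by `right` (`a = 1`, `B = 6`). Constants: `M^(1-δ/C) ≤ max 1 A' · (log T)^(1-δ/C)`. -/
def S_LB : Prop := ∀ G : ℂ → ℂ, Cl G → ∃ C T0 : ℝ, 1 ≤ C ∧ 3 ≤ T0 ∧ ∀ T θ δ : ℝ, T0 ≤ T →
  0 ≤ θ → θ ≤ 1 → 0 < δ → δ ≤ 1 / 2 → NZ G θ T 4 → ∀ z : ℂ, z.im = T → θ + δ ≤ z.re → z.re ≤ 3 →
    G z ≠ 0 ∧ |Real.log (‖G z‖ / ‖HH z‖) - Real.log (‖G (3 + I * T)‖ / ‖HH (3 + I * T)‖)| ≤ EE C T δ ∧
    ‖logDeriv G z - logDeriv HH z‖ ≤ EE C T δ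

/-- JOB OD (calculus). Proof. `w = u - 1/L` satisfies `w' = - q w + (1 - q/L)`, `‖1 - q/L‖ ≤ η`. With
`E x = exp(∫_a^x q)`: `(w E)' = (1 - q/L) E`, `‖E y‖/‖E x‖ = exp(-∫_y^x Re q) ≤ exp(-(L/2)(x-y))` for
`y ≤ x`, because `Re q ≥ (1-η) L ≥ L/2`. Hence
`‖w x‖ ≤ exp(-(L/2)(x-a)) ‖w a‖ + η ∫_a^x exp(-(L/2)(x-y)) dy ≤ exp(-(L/2)(x-a)) (U + 1/L) + 2 η/L`. -/
def S_OD : Prop := ∀ (u q : ℝ → ℂ) (a b L η U : ℝ), a ≤ b → 0 < L → 0 ≤ η → η ≤ 1 / 2 →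
  (∀ x ∈ Icc a b, HasDerivAt u (1 - q x * u x) x) → ContinuousOn q (Icc a b) →
  (∀ x ∈ Icc a b, ‖q x - (L : ℂ)‖ ≤ η * L) → ‖u a‖ ≤ U →
  ∀ x ∈ Icc a b, ‖u x - 1 / (L : ℂ)‖ ≤ Real.exp (-(L / 2) * (x - a)) * (U + 1 / L) + 2 * η / L

/-- JOB VI (vertical integration; from `S_HA`, `S_HB`, `S_LB`). The key step. For `F ∈ Cl`,
`G = Op b F ∈ Cl`, `a(z) = 1` or `2 z`, we have `F' = a G`. Proof. Let `z = x + I T`, `x = θ + δ`,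
`V = K log T`, `K = C - 4` large. For `0 ≤ v ≤ V` the hypothesis gives `NZ G θ (T+v) 4`, so
`S_LB` at height `T + v` and `mass` (of `G`) give, with the constant `C1` of `S_LB`,
`‖G(z+Iv)‖ ≤ exp(EE(T+v)) C2 (log(T+v))^k (T+v)^(-j) ‖HH(z+Iv)‖ ≤ exp(2 EE(T)) C3 (log T)^k T^(-j) e^(-v/2) ‖HH z‖`
(`EE C1 (T+v) δ ≤ 2 EE C1 T δ`, because `log(T+v) ≤ 2 log T`; `S_HB` for `HH`), and `‖a(z+Iv)‖ ≤ 2 ‖a z‖`.
So `‖d/dv F(z+Iv)‖ = ‖a G‖ ≤ B e^(-v/2)`, `B = 2 C3 ‖a z‖ exp(2 EE(T)) (log T)^k T^(-j) ‖HH z‖`, and hence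
`‖F(z+IV) - F z‖ ≤ 2 B` (no integral is needed: `image_norm_le_of_norm_deriv_right_le_deriv_boundary`
with the boundary `2 B (1 - e^(-v/2))`). At the top, by `grow` (for `F`) and `S_HB`,
`‖F(z+IV)‖ ≤ exp(A log(T+V)) e^(-V/2) ‖HH z‖ ≤ T^(2A - K/2) ‖HH z‖ ≤ T^(-j-1) ‖HH z‖` for `K` large in
terms of `A, j`. Finally `(log T)^k T^(-j) ≤ C ‖G(3+IT)‖/‖HH(3+IT)‖` (`mass`)
`≤ C exp(EE(T)) ‖G z‖/‖HH z‖` (`S_LB` at `z`). Together `‖F z‖ ≤ C4 ‖a z‖ exp(3 EE(T)) ‖G z‖`. -/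
def S_VI : Prop := ∀ (b : Bool) (F : ℂ → ℂ), Cl F → Cl (Op b F) → ∃ C T0 : ℝ, 1 ≤ C ∧ 3 ≤ T0 ∧
  ∀ T θ δ : ℝ, T0 ≤ T → 0 ≤ θ → θ ≤ 1 → 0 < δ → δ ≤ 1 / 2 → NZ (Op b F) θ T (C * Real.log T) →
  ‖F (((θ + δ : ℝ) : ℂ) + I * T)‖ ≤
    C * Real.exp (3 * EE C T δ) * ‖deriv F (((θ + δ : ℝ) : ℂ) + I * T)‖

/-- JOB BK (one step backwards; from `S_HA`, `S_LB`, `S_OD`, `S_VI`). Proof. `G = Op b F`, `F' = a G`,
`a = 1` or `2 z`. On the horizontal segment `z = x + I T`, `σ1 = θ + δ ≤ x ≤ 3`, `F' z ≠ 0` and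
`q = logDeriv (deriv F) = logDeriv G (+ 1/z)`, so by `S_LB` and `S_HA`
`‖q - L‖ ≤ EE C1 T δ + C ≤ (1/8) L`, `L = Om T`. `u x = F z / F' z` satisfies `u' = 1 - q u`, and
`‖u σ1‖ ≤ C exp(3 EE C T δ) = U` by `S_VI`. `S_OD`: for `x ≥ σ1 + 2δ`
`‖u - 1/L‖ ≤ exp(-L δ)(U + 1/L) + 1/(4 L) < 1/L`, so `u ≠ 0`, `F ≠ 0`. The inequality
`exp(-Lδ)(U + 1/L) ≤ 1/(2L)`: `Ok C' T δ` gives `EE C T δ ≤ (C/δ²) log T · (log T)^(-δ/C') ≤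
(C/C') δ log T = (2C/C') δ L` (`C' ≥ C`), and `(log T)^(δ/C') ≥ C'/δ³ ≥ 8 C'`, so
`δ loglog T ≥ C' log(8C')`, hence `δ L ≥ log T/(2 loglog T) ≥ 4 log(8 C L)` for large `T`. -/
def S_BK : Prop := ∀ (b : Bool) (F : ℂ → ℂ), Cl F → Cl (Op b F) → ∃ C T0 : ℝ, 1 ≤ C ∧ 3 ≤ T0 ∧
  ∀ T θ δ : ℝ, T0 ≤ T → 0 ≤ θ → θ ≤ 1 → Ok C T δ → NZ (Op b F) θ T (C * Real.log T) →
  ∀ z : ℂ, z.im = T → θ + 3 * δ ≤ z.re → z.re ≤ 2 → F z ≠ 0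

/-- JOB FW (one step forwards; from `S_HA`, `S_LB`). Proof. By `S_LB` and `S_HA`
`‖logDeriv F z - Om T‖ ≤ EE C T δ + C < Om T` (as in `S_BK`), so `deriv F z ≠ 0`, `Op b F z ≠ 0`. -/
def S_FW : Prop := ∀ (b : Bool) (F : ℂ → ℂ), Cl F → ∃ C T0 : ℝ, 1 ≤ C ∧ 3 ≤ T0 ∧
  ∀ T θ δ : ℝ, T0 ≤ T → 0 ≤ θ → θ ≤ 1 → Ok C T δ → NZ F θ T 4 →
  ∀ z : ℂ, z.im = T → θ + δ ≤ z.re → z.re ≤ 2 → Op b F z ≠ 0

/-- JOB UP (from `S_C0`, `S_CD`, `S_BK`). Proof. Induction on `l`, for all `X`. `l = []`: clear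
(`C = max 1 X`, `δ ≥ 0`). Step: `S_BK` with constant `C1` gives: if `Ok C T δ`,
`NZ (It (b :: l)) θ T (C log T)` with `C ≥ 4 (C1 + C2)`, `C2` the constant of `l`, then at every height
`T'` with `|T' - T| ≤ C2 log T` the hypotheses of `S_BK` hold (`T' ≥ T/2`, `Ok C1 T' δ` since
`(log T')^(δ/C1) ≥ (1/2) (log T)^(δ/C)`, and `|T'-T| + C1 log T' ≤ C log T`), so
`NZ (It l) (θ + 3δ) T (C2 log T)` (strict inequality `θ + 3δ < Re z`); apply the case `l` with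
`θ' = θ + 3δ`, `Ok C2 T δ`. -/
def S_UP : Prop := ∀ (l : List Bool) (X : ℝ), ∃ C T0 : ℝ, 1 ≤ C ∧ 3 ≤ T0 ∧
  ∀ T θ δ : ℝ, T0 ≤ T → 0 ≤ θ → θ + C * δ ≤ 1 → Ok C T δ → NZ (It l) θ T (C * Real.log T) →
  NZ XX (θ + C * δ) T (X * Real.log T)

/-- JOB DN (from `S_C0`, `S_CD`, `S_FW`). Proof. Induction on `l`, for all `X`, as for `S_UP`. -/
def S_DN : Prop := ∀ (l : List Bool) (X : ℝ), ∃ C T0 : ℝ, 1 ≤ C ∧ 3 ≤ T0 ∧
  ∀ T θ δ : ℝ, T0 ≤ T → 0 ≤ θ → θ + C * δ ≤ 1 → Ok C T δ → NZ XX θ T C →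
  NZ (It l) (θ + C * δ) T X

/-- JOB DI (from `S_UP`, `S_DN`): the dictionary. Proof. Contrapositive. First part: fix
`δ = ε / (2C)` (decrease `δ` below `1/2`); `Ok C T δ` holds for large `T`; if `It l` had no zero `w` with
`σ < Re w ≤ 2`, `|Im w - Im z| ≤ C log Im z`, then `NZ XX (σ + ε/2) (Im z) 0`, a contradiction with `XX z = 0`,
`Re z ≥ σ + ε` (zeros of `XX` have `|Re z| ≤ 1/2`: `JP.zerosT`, `JP.b1`, or `XX = HH ζ`). If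
`σ + ε > 1/2` there is nothing to prove. Second part: the same with `S_DN`, `X = 0`, for `z.re ≤ 2`. -/
def S_DI : Prop := ∀ (l : List Bool) (ε : ℝ), 0 < ε → ∃ C T0 : ℝ, 1 ≤ C ∧ 3 ≤ T0 ∧
  (∀ (z : ℂ) (σ : ℝ), XX z = 0 → T0 ≤ z.im → 0 ≤ σ → σ + ε ≤ z.re →
    ∃ w : ℂ, It l w = 0 ∧ σ < w.re ∧ |w.im - z.im| ≤ C * Real.log z.im) ∧
  (∀ (z : ℂ) (σ : ℝ), It l z = 0 → T0 ≤ z.im → 0 ≤ σ → σ + ε ≤ z.re → z.re ≤ 1 / 2 →
    ∃ w : ℂ, XX w = 0 ∧ σ < w.re ∧ |w.im - z.im| ≤ C)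

/-- JOB RA (from `S_UP`): the rate. Proof. `θ = 0`, `X = 0`, `C` from `S_UP`; for large `T` put
`δ = 10 C logloglog T / loglog T`. `Ok C T δ`: `log((log T)^(δ/C)) = 10 logloglog T ≥
log C + 3 log(1/δ)`, since `1/δ ≤ loglog T`. `NZ (It l) 0 T (C log T)` holds once `T - C log T ≥ T1`. So
zeros `z` of `XX` with `Im z = T` have `Re z ≤ C δ`; by `XX(-conj z) = conj (XX z)` (`JP.XX_neg`,
`JP.XX_conj`) the same for `-Re z`. -/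
def S_RA : Prop := ∀ (l : List Bool) (T1 : ℝ), (∀ z : ℂ, 0 < z.re → T1 ≤ z.im → It l z ≠ 0) →
  ∃ C : ℝ, 0 < C ∧ ∀ z : ℂ, XX z = 0 → C ≤ z.im →
    |z.re| ≤ C * (Real.log (Real.log (Real.log z.im)) / Real.log (Real.log z.im))

/-- JOB ID. Proof. Induction; `XX` is entire; for `true`: `iteratedDeriv n FF` is entire (`JP.b1`), the
chain rule gives `deriv (fun z => iteratedDeriv n FF (z^2)) z = 2 z * iteratedDeriv (n+1) FF (z^2)`, and the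
identity for `n` holds in a neighbourhood of `z ≠ 0`. -/
def S_ID : Prop := (∀ (n : ℕ) (z : ℂ), It (List.replicate n false) z = iteratedDeriv n XX z) ∧
  ∀ (n : ℕ) (z : ℂ), z ≠ 0 → It (List.replicate n true) z = iteratedDeriv n FF (z ^ 2)

/-- JOB SP: the zeros of the derivatives lie in the strip. Proof. `JP.xder b1 : SXder` writes
`iteratedDeriv (2m) XX z` and `iteratedDeriv (2m+1) XX z` as `c (z) * TI b m f (z^2)` with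
`f = iteratedDeriv m FF` or `iteratedDeriv (m+1) FF`; `f` is `Good` (`JP.itGood der gl`, `JP.goodT`), `TT`
keeps `Good` (`JP.opGood der`), and zeros of a `Good` function lie in `Par` (`JP.parT` with `n = 0`);
`z^2 ∈ Par` means `|Re z| ≤ 1/2`. (See the proof of `JP.xiF` in `XiFinal.lean`.) -/
def S_SP : Prop := ∀ (n : ℕ) (z : ℂ), iteratedDeriv n XX z = 0 → |z.re| ≤ 1 / 2

/-- JOB JN: Jensen polynomials of one shift. Proof. As in `Pool/Agent/H24R2/JP/RH2.lean` (case `n = 0`):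
`jensen d n (x/d) → iteratedDeriv n FF x` as `d → ∞`; the polynomials have positive coefficients
(`JP.gamT.1 : 0 < gam k`) and only real, hence negative zeros; the inequality `rh2_poly` passes to the
limit, so `iteratedDeriv n FF w ≠ 0` for `Im w ≠ 0`; for `w ≥ 0` real the value is a sum of positive terms. -/
def S_JN : Prop := ∀ n : ℕ, (∀ d : ℕ, Hyperbolic (jensen d n)) → ∀ x : ℂ, iteratedDeriv n FF x = 0 →
  x.im = 0 ∧ x.re < 0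

/-- For every `ε > 0` the function has only finitely many zeros with `Re s > θ + ε`. -/
def AlmostFree (F : ℂ → ℂ) (θ : ℝ) : Prop :=
  ∀ ε : ℝ, 0 < ε → {s : ℂ | θ + ε < s.re ∧ F s = 0}.Finite

/-- JOB GL (from `S_DI`, `S_ID`, `S_SP`): the global form. Proof. `8 * iteratedDeriv n xi (1/2 + z) =
iteratedDeriv n XX z`; zeros of `ζ` with `Re s > 1/2` are the zeros of `XX (s - 1/2)` there (`HH` has no
zeros for `Re z > 0` except `z = 1/2`, i.e. `s = 1`, which is not a zero of `ζ`: Mathlib's value at `1`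
is nonzero, `riemannZeta_one_ne_zero`, and `XX (1/2) ≠ 0`). Zeros are symmetric under conjugation, finitely many in
compact sets (the functions are entire and not zero), in `|Re z| ≤ 1/2` (`S_SP`). Apply `S_DI`
with `ε/2`, `σ = θ - 1/2 + ε/2` in both directions. -/
def S_GL : Prop := ∀ (n : ℕ) (θ : ℝ), 1 / 2 ≤ θ →
  (AlmostFree (iteratedDeriv n xi) θ ↔ AlmostFree riemannZeta θ)

/-- JOB LI: a zero free half plane gives Lindelof. Proof: `H31R2.DH.backlund_zeta` with no zeros in the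
disc (for `δ` small and all large heights), then convexity to the line `1/2`; see
`Pool/Agent/Q286/TR/Lind2.lean` (`small_of_few`), `Pool/Agent/Q240/LH/Final.lean` (`lindelof_iff` with
`P = 1`, no exponentials, and the functional equation). -/
def S_LI : Prop := AlmostFree riemannZeta (1 / 2) → ∀ ε : ℝ, 0 < ε → ∃ C : ℝ, ∀ t : ℝ,
  ‖riemannZeta (1 / 2 + t * I)‖ ≤ C * (1 + |t|) ^ ε

end Pool.Agent.Q260.DJ
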